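import Pool.Agent.NNe.Chk

set_option linter.all false
set_option maxRecDepth 1000000
namespace Pool.Agent.NNr.R15_1_2_3

open Pool.Agent.NNe

noncomputable def SI2_0 : Nat := (nat_lit 0x400)
noncomputable def SW2_0 : Nat := (nat_lit 0x2000)
noncomputable def RV2_0 : Nat := (nat_lit 0x29400429400a)
noncomputable def CO2_0 : Nat := (nat_lit 0x2a80a02654a)
noncomputable def C2_0 : Cd := (Cd.mk (nat_lit 2) (nat_lit 4) (nat_lit 1024) SI2_0 SW2_0 RV2_0 CO2_0 (Sl.cons (Sd.mk (nat_lit 9) (nat_lit 8) (nat_lit 0) (nat_lit 1) (Sb.cons (nat_lit 8) (nat_lit 0) (nat_lit 1) Sb.nil) Bl.nil) (Sl.cons (Sd.mk (nat_lit 10) (nat_lit 8) (nat_lit 1) (nat_lit 1) (Sb.cons (nat_lit 8) (nat_lit 0) (nat_lit 1) Sb.nil) Bl.nil) Sl.nil)))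
noncomputable def C2_1 : Cd := (Cd.mk (nat_lit 0) (nat_lit 5) (nat_lit 560) (nat_lit 0) (nat_lit 0) (nat_lit 0) (nat_lit 0) Sl.nil)
noncomputable def C2_2 : Cd := (Cd.mk (nat_lit 0) (nat_lit 6) (nat_lit 96) (nat_lit 0) (nat_lit 0) (nat_lit 0) (nat_lit 0) Sl.nil)
noncomputable def C2_3 : Cd := (Cd.mk (nat_lit 0) (nat_lit 5) (nat_lit 785) (nat_lit 0) (nat_lit 0) (nat_lit 0) (nat_lit 0) Sl.nil)
noncomputable def C2_4 : Cd := (Cd.mk (nat_lit 0) (nat_lit 6) (nat_lit 321) (nat_lit 0) (nat_lit 0) (nat_lit 0) (nat_lit 0) Sl.nil)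
noncomputable def C2_5 : Cd := (Cd.mk (nat_lit 0) (nat_lit 6) (nat_lit 546) (nat_lit 0) (nat_lit 0) (nat_lit 0) (nat_lit 0) Sl.nil)
noncomputable def C2_6 : Cd := (Cd.mk (nat_lit 0) (nat_lit 7) (nat_lit 82) (nat_lit 0) (nat_lit 0) (nat_lit 0) (nat_lit 0) Sl.nil)
noncomputable def C2_7 : Cd := (Cd.mk (nat_lit 0) (nat_lit 6) (nat_lit 771) (nat_lit 0) (nat_lit 0) (nat_lit 0) (nat_lit 0) Sl.nil)
noncomputable def C2_8 : Cd := (Cd.mk (nat_lit 0) (nat_lit 7) (nat_lit 307) (nat_lit 0) (nat_lit 0) (nat_lit 0) (nat_lit 0) Sl.nil)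
noncomputable def C2_9 : Cd := (Cd.mk (nat_lit 0) (nat_lit 7) (nat_lit 532) (nat_lit 0) (nat_lit 0) (nat_lit 0) (nat_lit 0) Sl.nil)
noncomputable def SI2_10 : Nat := (nat_lit 0x300c0200802008010000000000)
noncomputable def SW2_10 : Nat := (nat_lit 0x280060080038008002004004801800a000)
noncomputable def RV2_10 : Nat := (nat_lit 0x8000002600039e00029400039e001294001080001026005b9e002a94005a94007)
noncomputable def CO2_10 : Nat := (nat_lit 0x156800142d301100f01100a01004f01004a008a8000179300110f00110a00014a)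
noncomputable def Y2_10_2_3 : Nat := (nat_lit 0x800008000)
noncomputable def C2_10 : Cd := (Cd.mk (nat_lit 11) (nat_lit 8) (nat_lit 68) SI2_10 SW2_10 RV2_10 CO2_10 (Sl.cons (Sd.mk (nat_lit 0) (nat_lit 0) (nat_lit 0) (nat_lit 4) (Sb.cons (nat_lit 0) (nat_lit 0) (nat_lit 1) (Sb.cons (nat_lit 4) (nat_lit 1) (nat_lit 3) Sb.nil)) Bl.nil) (Sl.cons (Sd.mk (nat_lit 2) (nat_lit 0) (nat_lit 4) (nat_lit 1) (Sb.cons (nat_lit 0) (nat_lit 0) (nat_lit 1) Sb.nil) Bl.nil) (Sl.cons (Sd.mk (nat_lit 4) (nat_lit 4) (nat_lit 5) (nat_lit 4) (Sb.cons (nat_lit 0) (nat_lit 0) (nat_lit 2) (Sb.cons (nat_lit 4) (nat_lit 2) (nat_lit 2) Sb.nil)) (Bl.r Y2_10_2_3 (nat_lit 3) Bl.nil)) (Sl.cons (Sd.mk (nat_lit 5) (nat_lit 4) (nat_lit 9) (nat_lit 2) (Sb.cons (nat_lit 0) (nat_lit 0) (nat_lit 1) (Sb.cons (nat_lit 4) (nat_lit 1) (nat_lit 1) Sb.nil)) (Bl.c Y2_10_2_3 (nat_lit 8) (nat_lit 2) Bl.nil)) Sl.nil)))))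
noncomputable def C2_11 : Cd := (Cd.mk (nat_lit 0) (nat_lit 8) (nat_lit 293) (nat_lit 0) (nat_lit 0) (nat_lit 0) (nat_lit 0) Sl.nil)
noncomputable def C2_12 : Cd := (Cd.mk (nat_lit 0) (nat_lit 8) (nat_lit 518) (nat_lit 0) (nat_lit 0) (nat_lit 0) (nat_lit 0) Sl.nil)
noncomputable def SI2_13 : Nat := (nat_lit 0x300c02008020040000000)
noncomputable def SW2_13 : Nat := (nat_lit 0x6001002000a001001801c008000)
noncomputable def RV2_13 : Nat := (nat_lit 0x2600202600102600731a00031a001026003026006b1a004b1a005)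
noncomputable def CO2_13 : Nat := (nat_lit 0x152d30142d301179301100d01004d008a9300179300110d00014d)
noncomputable def Y2_13_1_0 : Nat := (nat_lit 0xe3)
noncomputable def Y2_13_2_3 : Nat := (nat_lit 0x6018c63)
noncomputable def C2_13 : Cd := (Cd.mk (nat_lit 9) (nat_lit 9) (nat_lit 54) SI2_13 SW2_13 RV2_13 CO2_13 (Sl.cons (Sd.mk (nat_lit 0) (nat_lit 0) (nat_lit 0) (nat_lit 3) (Sb.cons (nat_lit 0) (nat_lit 0) (nat_lit 1) (Sb.cons (nat_lit 4) (nat_lit 1) (nat_lit 2) Sb.nil)) (Bl.c Y2_13_1_0 (nat_lit 2) (nat_lit 1) Bl.nil)) (Sl.cons (Sd.mk (nat_lit 2) (nat_lit 0) (nat_lit 3) (nat_lit 1) (Sb.cons (nat_lit 0) (nat_lit 0) (nat_lit 1) Sb.nil) (Bl.r Y2_13_1_0 (nat_lit 0) Bl.nil)) (Sl.cons (Sd.mk (nat_lit 4) (nat_lit 4) (nat_lit 4) (nat_lit 3) (Sb.cons (nat_lit 0) (nat_lit 0) (nat_lit 1) (Sb.cons (nat_lit 4) (nat_lit 1) (nat_lit 2) Sb.nil)) (Bl.r Y2_13_2_3 (nat_lit 3) Bl.nil)) (Sl.cons (Sd.mk (nat_lit 5) (nat_lit 4) (nat_lit 7) (nat_lit 2) (Sb.cons (nat_lit 0) (nat_lit 0) (nat_lit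 1) (Sb.cons (nat_lit 4) (nat_lit 1) (nat_lit 1) Sb.nil)) (Bl.c Y2_13_2_3 (nat_lit 6) (nat_lit 2) Bl.nil)) Sl.nil)))))
noncomputable def C2_14 : Cd := (Cd.mk (nat_lit 0) (nat_lit 9) (nat_lit 279) (nat_lit 0) (nat_lit 0) (nat_lit 0) (nat_lit 0) Sl.nil)
noncomputable def SI2_15 : Nat := (nat_lit 0x100000)
noncomputable def SW2_15 : Nat := (nat_lit 0x4004000)
noncomputable def RV2_15 : Nat := (nat_lit 0x294002a94006a94008)
noncomputable def CO2_15 : Nat := (nat_lit 0x1004a00110a00014a)
noncomputable def C2_15 : Cd := (Cd.mk (nat_lit 3) (nat_lit 10) (nat_lit 40) SI2_15 SW2_15 RV2_15 CO2_15 (Sl.cons (Sd.mk (nat_lit 0) (nat_lit 0) (nat_lit 0) (nat_lit 2) (Sb.cons (nat_lit 0) (nat_lit 0) (nat_lit 1) (Sb.cons (nat_lit 4) (nat_lit 1) (nat_lit 1) Sb.nil)) Bl.nil) (Sl.cons (Sd.mk (nat_lit 4) (nat_lit 4) (nat_lit 2) (nat_lit 1) (Sb.cons (nat_lit 0) (nat_lit 0) (nat_lit 1) Sb.nil) Bl.nil) Sl.nil)))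
noncomputable def C2_16 : Cd := (Cd.mk (nat_lit 0) (nat_lit 10) (nat_lit 265) (nat_lit 0) (nat_lit 0) (nat_lit 0) (nat_lit 0) Sl.nil)
noncomputable def C2_17 : Cd := (Cd.mk (nat_lit 0) (nat_lit 11) (nat_lit 26) (nat_lit 0) (nat_lit 0) (nat_lit 0) (nat_lit 0) Sl.nil)
noncomputable def SI2_18 : Nat := (nat_lit 0)
noncomputable def SW2_18 : Nat := (nat_lit 0)
noncomputable def RV2_18 : Nat := (nat_lit 0x26004)
noncomputable def CO2_18 : Nat := (nat_lit 0x8a93)
noncomputable def C2_18 : Cd := (Cd.mk (nat_lit 1) (nat_lit 12) (nat_lit 12) SI2_18 SW2_18 RV2_18 CO2_18 (Sl.cons (Sd.mk (nat_lit 2) (nat_lit 0) (nat_lit 0) (nat_lit 1) (Sb.cons (nat_lit 0) (nat_lit 0) (nat_lit 1) Sb.nil) Bl.nil) Sl.nil))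
noncomputable def SI2_19 : Nat := (nat_lit 0x802008010040000000)
noncomputable def SW2_19 : Nat := (nat_lit 0x10004000004001801c00c005)
noncomputable def RV2_19 : Nat := (nat_lit 0xb1a00631a0022940034a400031a00331a00831a007294009)
noncomputable def CO2_19 : Nat := (nat_lit 0x3254d03244d03244a02a81202a80d02714d02710d02710a)
noncomputable def Y2_19_0_1 : Nat := (nat_lit 0x2108420)
noncomputable def Y2_19_2_2 : Nat := (nat_lit 0x80)
noncomputable def C2_19 : Cd := (Cd.mk (nat_lit 8) (nat_lit 3) (nat_lit 4608) SI2_19 SW2_19 RV2_19 CO2_19 (Sl.cons (Sd.mk (nat_lit 9) (nat_lit 8) (nat_lit 0) (nat_lit 3) (Sb.cons (nat_lit 12) (nat_lit 0) (nat_lit 3) Sb.nil) (Bl.r Y2_19_0_1 (nat_lit 1) Bl.nil)) (Sl.cons (Sd.mk (nat_lit 10) (nat_lit 8) (nat_lit 3) (nat_lit 2) (Sb.cons (nat_lit 8) (nat_lit 0) (nat_lit 2) Sb.nil) (Bl.c Y2_19_0_1 (nat_lit 6) (nat_lit 0) Bl.nil)) (Sl.cons (Sd.mk (nat_lit 12) (nat_lit 12) (nat_lit 5) (nat_lit 3) (Sb.cons (nat_lit 8) (nat_lit 0) (nat_lit 3) Sb.nil) (Bl.r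 Y2_19_2_2 (nat_lit 2) (Bl.c Y2_19_2_2 (nat_lit 6) (nat_lit 2) Bl.nil))) Sl.nil))))
noncomputable def C2_20 : Cd := (Cd.mk (nat_lit 0) (nat_lit 4) (nat_lit 4144) (nat_lit 0) (nat_lit 0) (nat_lit 0) (nat_lit 0) Sl.nil)
noncomputable def C2_21 : Cd := (Cd.mk (nat_lit 0) (nat_lit 4) (nat_lit 4369) (nat_lit 0) (nat_lit 0) (nat_lit 0) (nat_lit 0) Sl.nil)
noncomputable def C2_22 : Cd := (Cd.mk (nat_lit 0) (nat_lit 5) (nat_lit 4130) (nat_lit 0) (nat_lit 0) (nat_lit 0) (nat_lit 0) Sl.nil)
noncomputable def C2_23 : Cd := (Cd.mk (nat_lit 0) (nat_lit 5) (nat_lit 4355) (nat_lit 0) (nat_lit 0) (nat_lit 0) (nat_lit 0) Sl.nil)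
noncomputable def C2_24 : Cd := (Cd.mk (nat_lit 0) (nat_lit 6) (nat_lit 4116) (nat_lit 0) (nat_lit 0) (nat_lit 0) (nat_lit 0) Sl.nil)
noncomputable def C2_25 : Cd := (Cd.mk (nat_lit 0) (nat_lit 7) (nat_lit 4102) (nat_lit 0) (nat_lit 0) (nat_lit 0) (nat_lit 0) Sl.nil)
noncomputable def CL2 : Cl := (Cl.cons C2_0 (Cl.cons C2_1 (Cl.cons C2_2 (Cl.cons C2_3 (Cl.cons C2_4 (Cl.cons C2_5 (Cl.cons C2_6 (Cl.cons C2_7 (Cl.cons C2_8 (Cl.cons C2_9 (Cl.cons C2_10 (Cl.cons C2_11 (Cl.cons C2_12 (Cl.cons C2_13 (Cl.cons C2_14 (Cl.cons C2_15 (Cl.cons C2_16 (Cl.cons C2_17 (Cl.cons C2_18 (Cl.cons C2_19 (Cl.cons C2_20 (Cl.cons C2_21 (Cl.cons C2_22 (Cl.cons C2_23 (Cl.cons C2_24 (Cl.cons C2_25 Cl.nil))))))))))))))))))))))))))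
noncomputable def AL2_0 : Nat := (nat_lit 0x17ab50)
noncomputable def A42_0 : Nat := (nat_lit 0x8040)
noncomputable def IX2_0 : Nat := (nat_lit 0x1000000000000000000000000000000000000000000000000000000000000000000000000000000000000000000000000000000000000000000000000000000000000000000000000000000000000000000000000000000000000000000000000000)
noncomputable def OL2_0 : Nat := (nat_lit 0x1e0018)
noncomputable def AL2_1 : Nat := (nat_lit 0)
noncomputable def A42_1 : Nat := (nat_lit 0)
noncomputable def IX2_1 : Nat := (nat_lit 0)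
noncomputable def OL2_1 : Nat := (nat_lit 0)
noncomputable def AL2_2 : Nat := (nat_lit 0)
noncomputable def A42_2 : Nat := (nat_lit 0)
noncomputable def IX2_2 : Nat := (nat_lit 0)
noncomputable def OL2_2 : Nat := (nat_lit 0)
noncomputable def AL2_3 : Nat := (nat_lit 0)
noncomputable def A42_3 : Nat := (nat_lit 0)
noncomputable def IX2_3 : Nat := (nat_lit 0)
noncomputable def OL2_3 : Nat := (nat_lit 0)
noncomputable def AL2_4 : Nat := (nat_lit 0)
noncomputable def A42_4 : Nat := (nat_lit 0)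
noncomputable def IX2_4 : Nat := (nat_lit 0)
noncomputable def OL2_4 : Nat := (nat_lit 0)
noncomputable def AL2_5 : Nat := (nat_lit 0)
noncomputable def A42_5 : Nat := (nat_lit 0)
noncomputable def IX2_5 : Nat := (nat_lit 0)
noncomputable def OL2_5 : Nat := (nat_lit 0)
noncomputable def AL2_6 : Nat := (nat_lit 0)
noncomputable def A42_6 : Nat := (nat_lit 0)
noncomputable def IX2_6 : Nat := (nat_lit 0)
noncomputable def OL2_6 : Nat := (nat_lit 0)
noncomputable def AL2_7 : Nat := (nat_lit 0)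
noncomputable def A42_7 : Nat := (nat_lit 0)
noncomputable def IX2_7 : Nat := (nat_lit 0)
noncomputable def OL2_7 : Nat := (nat_lit 0)
noncomputable def AL2_8 : Nat := (nat_lit 0)
noncomputable def A42_8 : Nat := (nat_lit 0)
noncomputable def IX2_8 : Nat := (nat_lit 0)
noncomputable def OL2_8 : Nat := (nat_lit 0)
noncomputable def AL2_9 : Nat := (nat_lit 0)
noncomputable def A42_9 : Nat := (nat_lit 0)
noncomputable def IX2_9 : Nat := (nat_lit 0)
noncomputable def OL2_9 : Nat := (nat_lit 0)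
noncomputable def AL2_10 : Nat := (nat_lit 0x230427037018cdc08)
noncomputable def A42_10 : Nat := (nat_lit 0x104210110004c408)
noncomputable def IX2_10 : Nat := (nat_lit 0xa000000000000000000000000000000000000000000000000000000000000000000000000000009000000000000000000000000000000000000000000000000000000000000000080000000000000000000000000000000000000000000000000000000000000000700000000000000000000000000000000000000000000000000000000000000000000000000000000000000000000000000000006000000000000000000000000000000000000000000000000000500000000000000000000000000000000000000000000000000000000000000000000000000000000000000000000000000000000000000000000000000000000000000000000000000000000000000000000000000000000000004000000000000000000000000000000000000003000000000000200000000000000000000000000000000000000000000000000010000000000000000000000000000000000000000000000000000000000000000000000000000000000000000000000000000000000000000000000000000000000)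
noncomputable def OL2_10 : Nat := (nat_lit 0x3c006c00c4016002400400048007800e0014000c)
noncomputable def AL2_11 : Nat := (nat_lit 0)
noncomputable def A42_11 : Nat := (nat_lit 0)
noncomputable def IX2_11 : Nat := (nat_lit 0)
noncomputable def OL2_11 : Nat := (nat_lit 0)
noncomputable def AL2_12 : Nat := (nat_lit 0)
noncomputable def A42_12 : Nat := (nat_lit 0)
noncomputable def IX2_12 : Nat := (nat_lit 0)
noncomputable def OL2_12 : Nat := (nat_lit 0)
noncomputable def AL2_13 : Nat := (nat_lit 0x10114c0300080260040)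
noncomputable def A42_13 : Nat := (nat_lit 0x11440100080220040)
noncomputable def IX2_13 : Nat := (nat_lit 0x80000000000000000000000000000000000000000000000000007000000000000000000000000060000000000000000000000000000000000000000000000000005000000000000000000000000000000000000000000000000000000000000000000000000000000000000000000000000000000000000000000000000000000000400000000000000000000000000000000000000000000000000000000000000000000000000000000000000000000000000000000000000000000000000000000000000000000000000000000000000000000000030000000000000000000000000000000000000000000000000000000000000000000000000000000000000000000000000000000000000000000000000000000002000000000000000000000000000000000000000000000000000100000000000000000000000000000000000000000000000000000000000000000000000000000000000000000000000000000000000000000000000000000000000000000000000000000000000000000000000000000000000000000000000000000000000000000000000000000)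
noncomputable def OL2_13 : Nat := (nat_lit 0x10001e003a006c00b000f801500220018)
noncomputable def AL2_14 : Nat := (nat_lit 0)
noncomputable def A42_14 : Nat := (nat_lit 0)
noncomputable def IX2_14 : Nat := (nat_lit 0)
noncomputable def OL2_14 : Nat := (nat_lit 0)
noncomputable def AL2_15 : Nat := (nat_lit 0x1000030040030040)
noncomputable def A42_15 : Nat := (nat_lit 0x10000010040)
noncomputable def IX2_15 : Nat := (nat_lit 0x20000000000000000000000000000000000000000000000000000000000000000000000000000000000000000000000000000000000000000000000000000000000000000000000000000000000000000000000000000000000000000000000000000000000000000000000000000000000000000000000000000000000000000000000000000000000000000000000000000000000000000000000010000000000000000000000000000000000000000000000000000000000000000000000000000000000000000000000000000000000000000000000000000000000000000000000000000000000000000000000000000000000000000000000000000000000000000)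
noncomputable def OL2_15 : Nat := (nat_lit 0x2800200018)
noncomputable def AL2_16 : Nat := (nat_lit 0)
noncomputable def A42_16 : Nat := (nat_lit 0)
noncomputable def IX2_16 : Nat := (nat_lit 0)
noncomputable def OL2_16 : Nat := (nat_lit 0)
noncomputable def AL2_17 : Nat := (nat_lit 0)
noncomputable def A42_17 : Nat := (nat_lit 0)
noncomputable def IX2_17 : Nat := (nat_lit 0)
noncomputable def OL2_17 : Nat := (nat_lit 0)
noncomputable def AL2_18 : Nat := (nat_lit 0x80a)
noncomputable def A42_18 : Nat := (nat_lit 0x800)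
noncomputable def IX2_18 : Nat := (nat_lit 0)
noncomputable def OL2_18 : Nat := (nat_lit 0x2c)
noncomputable def AL2_19 : Nat := (nat_lit 0x2840d1000000011800000005081a20000)
noncomputable def A42_19 : Nat := (nat_lit 0x200050000000010800000004000a00000)
noncomputable def IX2_19 : Nat := (nat_lit 0x700000000000000000000000000000000000000000000000000000000000000000000000000000000000000000000000000000000000000000000000000000000000000000000000000000000000000000000000000000000000000000000000000600000000000000000000000005000000000000000000000000000000000000000000000000000000000000000000000000000000000000000000000000000000000000000000000000000000000000000000000000000000000000000000000000000000000000000000000000000000000000000000000000000000000000000000000000000000000000000000000000000000000000000000000000000000000000000000000000000000000000000000000000000000000000000000000000000000000000000000000000000000000000000000000000000000000000000000000000000000000000000000000000000000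0000040000000000000000000000000000000000000000000000000000000000000000300000000000000000000000000000000000000000000000000000000000000000000000000000000000000000000000000000000000000000000000000000000000000000000000000000000000000000000000000000000000000000000000000000000000000000000000000000000000000000000000000000000000000000000000000000000000000000000000000000000000000000000000000000000000000000000000000000000000000000000000000000000000000000000000000000000000000000000000000000000000000000000200000000000000000000000000000000000000000000000000000000000000000000000000000000000000000000000000000000000000000000000000000000000000000000000000000000000000000000000000000000000000000000000000100000000000000000000000000000000000000000000000000000000000000000000000000000000000000000000000000000000000000000000000000000000000000000000000000000000000000000000000000000000000000000000000000000000000000000000000000000000000000000000000000000000000000000000000000000000000000000000000000000000000)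
noncomputable def OL2_19 : Nat := (nat_lit 0x40807200e001300238026002e0054)
noncomputable def AL2_20 : Nat := (nat_lit 0)
noncomputable def A42_20 : Nat := (nat_lit 0)
noncomputable def IX2_20 : Nat := (nat_lit 0)
noncomputable def OL2_20 : Nat := (nat_lit 0)
noncomputable def AL2_21 : Nat := (nat_lit 0)
noncomputable def A42_21 : Nat := (nat_lit 0)
noncomputable def IX2_21 : Nat := (nat_lit 0)
noncomputable def OL2_21 : Nat := (nat_lit 0)
noncomputable def AL2_22 : Nat := (nat_lit 0)
noncomputable def A42_22 : Nat := (nat_lit 0)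
noncomputable def IX2_22 : Nat := (nat_lit 0)
noncomputable def OL2_22 : Nat := (nat_lit 0)
noncomputable def AL2_23 : Nat := (nat_lit 0)
noncomputable def A42_23 : Nat := (nat_lit 0)
noncomputable def IX2_23 : Nat := (nat_lit 0)
noncomputable def OL2_23 : Nat := (nat_lit 0)
noncomputable def AL2_24 : Nat := (nat_lit 0)
noncomputable def A42_24 : Nat := (nat_lit 0)
noncomputable def IX2_24 : Nat := (nat_lit 0)
noncomputable def OL2_24 : Nat := (nat_lit 0)
noncomputable def AL2_25 : Nat := (nat_lit 0)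
noncomputable def A42_25 : Nat := (nat_lit 0)
noncomputable def IX2_25 : Nat := (nat_lit 0)
noncomputable def OL2_25 : Nat := (nat_lit 0)
noncomputable def TL2 : Tl := (Tl.cons (Tr.mk AL2_0 A42_0 IX2_0 OL2_0) (Tl.cons (Tr.mk AL2_1 A42_1 IX2_1 OL2_1) (Tl.cons (Tr.mk AL2_2 A42_2 IX2_2 OL2_2) (Tl.cons (Tr.mk AL2_3 A42_3 IX2_3 OL2_3) (Tl.cons (Tr.mk AL2_4 A42_4 IX2_4 OL2_4) (Tl.cons (Tr.mk AL2_5 A42_5 IX2_5 OL2_5) (Tl.cons (Tr.mk AL2_6 A42_6 IX2_6 OL2_6) (Tl.cons (Tr.mk AL2_7 A42_7 IX2_7 OL2_7) (Tl.cons (Tr.mk AL2_8 A42_8 IX2_8 OL2_8) (Tl.cons (Tr.mk AL2_9 A42_9 IX2_9 OL2_9) (Tl.cons (Tr.mk AL2_10 A42_10 IX2_10 OL2_10) (Tl.cons (Tr.mk AL2_11 A42_11 IX2_11 OL2_11) (Tl.cons (Tr.mk AL2_12 A42_12 IX2_12 OL2_12) (Tl.cons (Tr.mk AL2_13 A42_13 IX2_13 OL2_13) (Tl.cons (Tr.mk AL2_14 A42_14 IX2_14 OL2_14) (Tl.cons (Tr.mk AL2_15 A42_15 IX2_15 OL2_15) (Tl.cons (Tr.mk AL2_16 A42_16 IX2_16 OL2_16) (Tl.cons (Tr.mk AL2_17 A42_17 IX2_17 OL2_17) (Tl.cons (Tr.mk AL2_18 A42_18 IX2_18 OL2_18) (Tl.cons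 (Tr.mk AL2_19 A42_19 IX2_19 OL2_19) (Tl.cons (Tr.mk AL2_20 A42_20 IX2_20 OL2_20) (Tl.cons (Tr.mk AL2_21 A42_21 IX2_21 OL2_21) (Tl.cons (Tr.mk AL2_22 A42_22 IX2_22 OL2_22) (Tl.cons (Tr.mk AL2_23 A42_23 IX2_23 OL2_23) (Tl.cons (Tr.mk AL2_24 A42_24 IX2_24 OL2_24) (Tl.cons (Tr.mk AL2_25 A42_25 IX2_25 OL2_25) Tl.nil))))))))))))))))))))))))))
noncomputable def ZL2_0 : Zl := (Zl.cons (nat_lit 0) (nat_lit 0) (nat_lit 0) (Zl.cons (nat_lit 0) (nat_lit 0) (nat_lit 0) (Zl.cons (nat_lit 0) (nat_lit 0) (nat_lit 0) (Zl.cons (nat_lit 0) (nat_lit 0) (nat_lit 0) (Zl.cons (nat_lit 0) (nat_lit 0) (nat_lit 0) (Zl.cons (nat_lit 0) (nat_lit 0) (nat_lit 0) (Zl.cons (nat_lit 0) (nat_lit 0) (nat_lit 0) (Zl.cons (nat_lit 0) (nat_lit 0) (nat_lit 0) (Zl.cons (nat_lit 0) (nat_lit 0) (nat_lit 0) (Zl.cons (nat_lit 0) (nat_lit 0) (nat_lit 0) (Zl.cons (nat_lit 5) (nat_lit 0) (nat_lit 4) (Zl.cons (nat_lit 0) (nat_lit 0) (nat_lit 0) (Zl.cons (nat_lit 0) (nat_lit 0) (nat_lit 0) (Zl.cons (nat_lit 4) (nat_lit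 4) (nat_lit 3) (Zl.cons (nat_lit 0) (nat_lit 0) (nat_lit 0) (Zl.cons (nat_lit 2) (nat_lit 7) (nat_lit 1) (Zl.cons (nat_lit 0) (nat_lit 0) (nat_lit 0) (Zl.cons (nat_lit 0) (nat_lit 0) (nat_lit 0) (Zl.cons (nat_lit 0) (nat_lit 0) (nat_lit 0) (Zl.cons (nat_lit 0) (nat_lit 0) (nat_lit 0) (Zl.cons (nat_lit 0) (nat_lit 0) (nat_lit 0) (Zl.cons (nat_lit 0) (nat_lit 0) (nat_lit 0) (Zl.cons (nat_lit 0) (nat_lit 0) (nat_lit 0) (Zl.cons (nat_lit 0) (nat_lit 0) (nat_lit 0) (Zl.cons (nat_lit 0) (nat_lit 0) (nat_lit 0) (Zl.cons (nat_lit 0) (nat_lit 0) (nat_lit 0) Zl.nil))))))))))))))))))))))))))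
noncomputable def ZZ2 : ZZ := (ZZ.cons ZL2_0 ZZ.nil)

end Pool.Agent.NNr.R15_1_2_3
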