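import Pool.Agent.NNe.Chk

set_option linter.all false
set_option maxRecDepth 1000000
namespace Pool.Agent.NNr.R15_1_2_3

open Pool.Agent.NNe

noncomputable def C3_0 : Cd := (Cd.mk (nat_lit 0) (nat_lit 4) (nat_lit 1024) (nat_lit 0) (nat_lit 0) (nat_lit 0) (nat_lit 0) Sl.nil)
noncomputable def C3_1 : Cd := (Cd.mk (nat_lit 0) (nat_lit 5) (nat_lit 560) (nat_lit 0) (nat_lit 0) (nat_lit 0) (nat_lit 0) Sl.nil)
noncomputable def C3_2 : Cd := (Cd.mk (nat_lit 0) (nat_lit 6) (nat_lit 96) (nat_lit 0) (nat_lit 0) (nat_lit 0) (nat_lit 0) Sl.nil)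
noncomputable def C3_3 : Cd := (Cd.mk (nat_lit 0) (nat_lit 5) (nat_lit 785) (nat_lit 0) (nat_lit 0) (nat_lit 0) (nat_lit 0) Sl.nil)
noncomputable def C3_4 : Cd := (Cd.mk (nat_lit 0) (nat_lit 6) (nat_lit 321) (nat_lit 0) (nat_lit 0) (nat_lit 0) (nat_lit 0) Sl.nil)
noncomputable def C3_5 : Cd := (Cd.mk (nat_lit 0) (nat_lit 6) (nat_lit 546) (nat_lit 0) (nat_lit 0) (nat_lit 0) (nat_lit 0) Sl.nil)
noncomputable def C3_6 : Cd := (Cd.mk (nat_lit 0) (nat_lit 7) (nat_lit 82) (nat_lit 0) (nat_lit 0) (nat_lit 0) (nat_lit 0) Sl.nil)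
noncomputable def C3_7 : Cd := (Cd.mk (nat_lit 0) (nat_lit 6) (nat_lit 771) (nat_lit 0) (nat_lit 0) (nat_lit 0) (nat_lit 0) Sl.nil)
noncomputable def C3_8 : Cd := (Cd.mk (nat_lit 0) (nat_lit 7) (nat_lit 307) (nat_lit 0) (nat_lit 0) (nat_lit 0) (nat_lit 0) Sl.nil)
noncomputable def C3_9 : Cd := (Cd.mk (nat_lit 0) (nat_lit 7) (nat_lit 532) (nat_lit 0) (nat_lit 0) (nat_lit 0) (nat_lit 0) Sl.nil)
noncomputable def C3_10 : Cd := (Cd.mk (nat_lit 0) (nat_lit 8) (nat_lit 68) (nat_lit 0) (nat_lit 0) (nat_lit 0) (nat_lit 0) Sl.nil)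
noncomputable def C3_11 : Cd := (Cd.mk (nat_lit 0) (nat_lit 8) (nat_lit 293) (nat_lit 0) (nat_lit 0) (nat_lit 0) (nat_lit 0) Sl.nil)
noncomputable def C3_12 : Cd := (Cd.mk (nat_lit 0) (nat_lit 8) (nat_lit 518) (nat_lit 0) (nat_lit 0) (nat_lit 0) (nat_lit 0) Sl.nil)
noncomputable def SI3_13 : Nat := (nat_lit 0x20080100000)
noncomputable def SW3_13 : Nat := (nat_lit 0x40008008006000)
noncomputable def RV3_13 : Nat := (nat_lit 0x31a00031a001026000b1a003b1a004)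
noncomputable def CO3_13 : Nat := (nat_lit 0x1100d01004d008a9300110d00014d)
noncomputable def Y3_13_1_0 : Nat := (nat_lit 0x18)
noncomputable def C3_13 : Cd := (Cd.mk (nat_lit 5) (nat_lit 9) (nat_lit 54) SI3_13 SW3_13 RV3_13 CO3_13 (Sl.cons (Sd.mk (nat_lit 0) (nat_lit 0) (nat_lit 0) (nat_lit 2) (Sb.cons (nat_lit 0) (nat_lit 0) (nat_lit 1) (Sb.cons (nat_lit 4) (nat_lit 1) (nat_lit 1) Sb.nil)) (Bl.c Y3_13_1_0 (nat_lit 2) (nat_lit 1) Bl.nil)) (Sl.cons (Sd.mk (nat_lit 2) (nat_lit 0) (nat_lit 2) (nat_lit 1) (Sb.cons (nat_lit 0) (nat_lit 0) (nat_lit 1) Sb.nil) (Bl.r Y3_13_1_0 (nat_lit 0) Bl.nil)) (Sl.cons (Sd.mk (nat_lit 4) (nat_lit 4) (nat_lit 3) (nat_lit 2) (Sb.cons (nat_lit 0) (nat_lit 0) (nat_lit 1) (Sb.cons (nat_lit 4) (nat_lit 1) (nat_lit 1) Sb.nil)) Bl.nil) Sl.nil))))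
noncomputable def C3_14 : Cd := (Cd.mk (nat_lit 0) (nat_lit 9) (nat_lit 279) (nat_lit 0) (nat_lit 0) (nat_lit 0) (nat_lit 0) Sl.nil)
noncomputable def C3_15 : Cd := (Cd.mk (nat_lit 0) (nat_lit 10) (nat_lit 40) (nat_lit 0) (nat_lit 0) (nat_lit 0) (nat_lit 0) Sl.nil)
noncomputable def C3_16 : Cd := (Cd.mk (nat_lit 0) (nat_lit 10) (nat_lit 265) (nat_lit 0) (nat_lit 0) (nat_lit 0) (nat_lit 0) Sl.nil)
noncomputable def C3_17 : Cd := (Cd.mk (nat_lit 0) (nat_lit 11) (nat_lit 26) (nat_lit 0) (nat_lit 0) (nat_lit 0) (nat_lit 0) Sl.nil)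
noncomputable def C3_18 : Cd := (Cd.mk (nat_lit 0) (nat_lit 12) (nat_lit 12) (nat_lit 0) (nat_lit 0) (nat_lit 0) (nat_lit 0) Sl.nil)
noncomputable def SI3_19 : Nat := (nat_lit 0)
noncomputable def SW3_19 : Nat := (nat_lit 0)
noncomputable def RV3_19 : Nat := (nat_lit 0x31a002)
noncomputable def CO3_19 : Nat := (nat_lit 0x2a80d)
noncomputable def C3_19 : Cd := (Cd.mk (nat_lit 1) (nat_lit 3) (nat_lit 4608) SI3_19 SW3_19 RV3_19 CO3_19 (Sl.cons (Sd.mk (nat_lit 10) (nat_lit 8) (nat_lit 0) (nat_lit 1) (Sb.cons (nat_lit 8) (nat_lit 0) (nat_lit 1) Sb.nil) Bl.nil) Sl.nil))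
noncomputable def C3_20 : Cd := (Cd.mk (nat_lit 0) (nat_lit 4) (nat_lit 4144) (nat_lit 0) (nat_lit 0) (nat_lit 0) (nat_lit 0) Sl.nil)
noncomputable def C3_21 : Cd := (Cd.mk (nat_lit 0) (nat_lit 4) (nat_lit 4369) (nat_lit 0) (nat_lit 0) (nat_lit 0) (nat_lit 0) Sl.nil)
noncomputable def C3_22 : Cd := (Cd.mk (nat_lit 0) (nat_lit 5) (nat_lit 4130) (nat_lit 0) (nat_lit 0) (nat_lit 0) (nat_lit 0) Sl.nil)
noncomputable def C3_23 : Cd := (Cd.mk (nat_lit 0) (nat_lit 5) (nat_lit 4355) (nat_lit 0) (nat_lit 0) (nat_lit 0) (nat_lit 0) Sl.nil)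
noncomputable def C3_24 : Cd := (Cd.mk (nat_lit 0) (nat_lit 6) (nat_lit 4116) (nat_lit 0) (nat_lit 0) (nat_lit 0) (nat_lit 0) Sl.nil)
noncomputable def C3_25 : Cd := (Cd.mk (nat_lit 0) (nat_lit 7) (nat_lit 4102) (nat_lit 0) (nat_lit 0) (nat_lit 0) (nat_lit 0) Sl.nil)
noncomputable def CL3 : Cl := (Cl.cons C3_0 (Cl.cons C3_1 (Cl.cons C3_2 (Cl.cons C3_3 (Cl.cons C3_4 (Cl.cons C3_5 (Cl.cons C3_6 (Cl.cons C3_7 (Cl.cons C3_8 (Cl.cons C3_9 (Cl.cons C3_10 (Cl.cons C3_11 (Cl.cons C3_12 (Cl.cons C3_13 (Cl.cons C3_14 (Cl.cons C3_15 (Cl.cons C3_16 (Cl.cons C3_17 (Cl.cons C3_18 (Cl.cons C3_19 (Cl.cons C3_20 (Cl.cons C3_21 (Cl.cons C3_22 (Cl.cons C3_23 (Cl.cons C3_24 (Cl.cons C3_25 Cl.nil))))))))))))))))))))))))))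
noncomputable def AL3_0 : Nat := (nat_lit 0)
noncomputable def A43_0 : Nat := (nat_lit 0)
noncomputable def IX3_0 : Nat := (nat_lit 0)
noncomputable def OL3_0 : Nat := (nat_lit 0)
noncomputable def AL3_1 : Nat := (nat_lit 0)
noncomputable def A43_1 : Nat := (nat_lit 0)
noncomputable def IX3_1 : Nat := (nat_lit 0)
noncomputable def OL3_1 : Nat := (nat_lit 0)
noncomputable def AL3_2 : Nat := (nat_lit 0)
noncomputable def A43_2 : Nat := (nat_lit 0)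
noncomputable def IX3_2 : Nat := (nat_lit 0)
noncomputable def OL3_2 : Nat := (nat_lit 0)
noncomputable def AL3_3 : Nat := (nat_lit 0)
noncomputable def A43_3 : Nat := (nat_lit 0)
noncomputable def IX3_3 : Nat := (nat_lit 0)
noncomputable def OL3_3 : Nat := (nat_lit 0)
noncomputable def AL3_4 : Nat := (nat_lit 0)
noncomputable def A43_4 : Nat := (nat_lit 0)
noncomputable def IX3_4 : Nat := (nat_lit 0)
noncomputable def OL3_4 : Nat := (nat_lit 0)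
noncomputable def AL3_5 : Nat := (nat_lit 0)
noncomputable def A43_5 : Nat := (nat_lit 0)
noncomputable def IX3_5 : Nat := (nat_lit 0)
noncomputable def OL3_5 : Nat := (nat_lit 0)
noncomputable def AL3_6 : Nat := (nat_lit 0)
noncomputable def A43_6 : Nat := (nat_lit 0)
noncomputable def IX3_6 : Nat := (nat_lit 0)
noncomputable def OL3_6 : Nat := (nat_lit 0)
noncomputable def AL3_7 : Nat := (nat_lit 0)
noncomputable def A43_7 : Nat := (nat_lit 0)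
noncomputable def IX3_7 : Nat := (nat_lit 0)
noncomputable def OL3_7 : Nat := (nat_lit 0)
noncomputable def AL3_8 : Nat := (nat_lit 0)
noncomputable def A43_8 : Nat := (nat_lit 0)
noncomputable def IX3_8 : Nat := (nat_lit 0)
noncomputable def OL3_8 : Nat := (nat_lit 0)
noncomputable def AL3_9 : Nat := (nat_lit 0)
noncomputable def A43_9 : Nat := (nat_lit 0)
noncomputable def IX3_9 : Nat := (nat_lit 0)
noncomputable def OL3_9 : Nat := (nat_lit 0)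
noncomputable def AL3_10 : Nat := (nat_lit 0)
noncomputable def A43_10 : Nat := (nat_lit 0)
noncomputable def IX3_10 : Nat := (nat_lit 0)
noncomputable def OL3_10 : Nat := (nat_lit 0)
noncomputable def AL3_11 : Nat := (nat_lit 0)
noncomputable def A43_11 : Nat := (nat_lit 0)
noncomputable def IX3_11 : Nat := (nat_lit 0)
noncomputable def OL3_11 : Nat := (nat_lit 0)
noncomputable def AL3_12 : Nat := (nat_lit 0)
noncomputable def A43_12 : Nat := (nat_lit 0)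
noncomputable def IX3_12 : Nat := (nat_lit 0)
noncomputable def OL3_12 : Nat := (nat_lit 0)
noncomputable def AL3_13 : Nat := (nat_lit 0x1bb)
noncomputable def A43_13 : Nat := (nat_lit 0x3b)
noncomputable def IX3_13 : Nat := (nat_lit 0x400000000000030000000000002000000000000000000000000010000000000000)
noncomputable def OL3_13 : Nat := (nat_lit 0x14002000300020000)
noncomputable def AL3_14 : Nat := (nat_lit 0)
noncomputable def A43_14 : Nat := (nat_lit 0)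
noncomputable def IX3_14 : Nat := (nat_lit 0)
noncomputable def OL3_14 : Nat := (nat_lit 0)
noncomputable def AL3_15 : Nat := (nat_lit 0)
noncomputable def A43_15 : Nat := (nat_lit 0)
noncomputable def IX3_15 : Nat := (nat_lit 0)
noncomputable def OL3_15 : Nat := (nat_lit 0)
noncomputable def AL3_16 : Nat := (nat_lit 0)
noncomputable def A43_16 : Nat := (nat_lit 0)
noncomputable def IX3_16 : Nat := (nat_lit 0)
noncomputable def OL3_16 : Nat := (nat_lit 0)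
noncomputable def AL3_17 : Nat := (nat_lit 0)
noncomputable def A43_17 : Nat := (nat_lit 0)
noncomputable def IX3_17 : Nat := (nat_lit 0)
noncomputable def OL3_17 : Nat := (nat_lit 0)
noncomputable def AL3_18 : Nat := (nat_lit 0)
noncomputable def A43_18 : Nat := (nat_lit 0)
noncomputable def IX3_18 : Nat := (nat_lit 0)
noncomputable def OL3_18 : Nat := (nat_lit 0)
noncomputable def AL3_19 : Nat := (nat_lit 0xe)
noncomputable def A43_19 : Nat := (nat_lit 0x8)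
noncomputable def IX3_19 : Nat := (nat_lit 0)
noncomputable def OL3_19 : Nat := (nat_lit 0xc)
noncomputable def AL3_20 : Nat := (nat_lit 0)
noncomputable def A43_20 : Nat := (nat_lit 0)
noncomputable def IX3_20 : Nat := (nat_lit 0)
noncomputable def OL3_20 : Nat := (nat_lit 0)
noncomputable def AL3_21 : Nat := (nat_lit 0)
noncomputable def A43_21 : Nat := (nat_lit 0)
noncomputable def IX3_21 : Nat := (nat_lit 0)
noncomputable def OL3_21 : Nat := (nat_lit 0)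
noncomputable def AL3_22 : Nat := (nat_lit 0)
noncomputable def A43_22 : Nat := (nat_lit 0)
noncomputable def IX3_22 : Nat := (nat_lit 0)
noncomputable def OL3_22 : Nat := (nat_lit 0)
noncomputable def AL3_23 : Nat := (nat_lit 0)
noncomputable def A43_23 : Nat := (nat_lit 0)
noncomputable def IX3_23 : Nat := (nat_lit 0)
noncomputable def OL3_23 : Nat := (nat_lit 0)
noncomputable def AL3_24 : Nat := (nat_lit 0)
noncomputable def A43_24 : Nat := (nat_lit 0)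
noncomputable def IX3_24 : Nat := (nat_lit 0)
noncomputable def OL3_24 : Nat := (nat_lit 0)
noncomputable def AL3_25 : Nat := (nat_lit 0)
noncomputable def A43_25 : Nat := (nat_lit 0)
noncomputable def IX3_25 : Nat := (nat_lit 0)
noncomputable def OL3_25 : Nat := (nat_lit 0)
noncomputable def TL3 : Tl := (Tl.cons (Tr.mk AL3_0 A43_0 IX3_0 OL3_0) (Tl.cons (Tr.mk AL3_1 A43_1 IX3_1 OL3_1) (Tl.cons (Tr.mk AL3_2 A43_2 IX3_2 OL3_2) (Tl.cons (Tr.mk AL3_3 A43_3 IX3_3 OL3_3) (Tl.cons (Tr.mk AL3_4 A43_4 IX3_4 OL3_4) (Tl.cons (Tr.mk AL3_5 A43_5 IX3_5 OL3_5) (Tl.cons (Tr.mk AL3_6 A43_6 IX3_6 OL3_6) (Tl.cons (Tr.mk AL3_7 A43_7 IX3_7 OL3_7) (Tl.cons (Tr.mk AL3_8 A43_8 IX3_8 OL3_8) (Tl.cons (Tr.mk AL3_9 A43_9 IX3_9 OL3_9) (Tl.cons (Tr.mk AL3_10 A43_10 IX3_10 OL3_10) (Tl.cons (Tr.mk AL3_11 A43_11 IX3_11 OL3_11) (Tl.cons (Tr.mk AL3_12 A43_12 IX3_12 OL3_12) (Tl.cons (Tr.mk AL3_13 A43_13 IX3_13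 OL3_13) (Tl.cons (Tr.mk AL3_14 A43_14 IX3_14 OL3_14) (Tl.cons (Tr.mk AL3_15 A43_15 IX3_15 OL3_15) (Tl.cons (Tr.mk AL3_16 A43_16 IX3_16 OL3_16) (Tl.cons (Tr.mk AL3_17 A43_17 IX3_17 OL3_17) (Tl.cons (Tr.mk AL3_18 A43_18 IX3_18 OL3_18) (Tl.cons (Tr.mk AL3_19 A43_19 IX3_19 OL3_19) (Tl.cons (Tr.mk AL3_20 A43_20 IX3_20 OL3_20) (Tl.cons (Tr.mk AL3_21 A43_21 IX3_21 OL3_21) (Tl.cons (Tr.mk AL3_22 A43_22 IX3_22 OL3_22) (Tl.cons (Tr.mk AL3_23 A43_23 IX3_23 OL3_23) (Tl.cons (Tr.mk AL3_24 A43_24 IX3_24 OL3_24) (Tl.cons (Tr.mk AL3_25 A43_25 IX3_25 OL3_25) Tl.nil))))))))))))))))))))))))))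
noncomputable def ZL3_0 : Zl := (Zl.cons (nat_lit 0) (nat_lit 0) (nat_lit 0) (Zl.cons (nat_lit 0) (nat_lit 0) (nat_lit 0) (Zl.cons (nat_lit 0) (nat_lit 0) (nat_lit 0) (Zl.cons (nat_lit 0) (nat_lit 0) (nat_lit 0) (Zl.cons (nat_lit 0) (nat_lit 0) (nat_lit 0) (Zl.cons (nat_lit 0) (nat_lit 0) (nat_lit 0) (Zl.cons (nat_lit 0) (nat_lit 0) (nat_lit 0) (Zl.cons (nat_lit 0) (nat_lit 0) (nat_lit 0) (Zl.cons (nat_lit 0) (nat_lit 0) (nat_lit 0) (Zl.cons (nat_lit 0) (nat_lit 0) (nat_lit 0) (Zl.cons (nat_lit 0) (nat_lit 0) (nat_lit 0) (Zl.cons (nat_lit 0) (nat_lit 0) (nat_lit 0) (Zl.cons (nat_lit 0) (nat_lit 0) (nat_lit 0) (Zl.cons (nat_lit 0) (nat_lit 0) (nat_lit 5) (Zl.cons (nat_lit 0) (nat_lit 0) (nat_lit 0) (Zl.cons (nat_lit 0) (nat_lit 0) (nat_lit 0) (Zl.cons (nat_lit 0) (nat_lit 0) (nat_lit 0) (Zl.cons (nat_lit 0) (nat_lit 0) (nat_lit 0) (Zl.cons (nat_lit 0) (nat_lit 0) (nat_lit 0)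 (Zl.cons (nat_lit 0) (nat_lit 0) (nat_lit 1) (Zl.cons (nat_lit 0) (nat_lit 0) (nat_lit 0) (Zl.cons (nat_lit 0) (nat_lit 0) (nat_lit 0) (Zl.cons (nat_lit 0) (nat_lit 0) (nat_lit 0) (Zl.cons (nat_lit 0) (nat_lit 0) (nat_lit 0) (Zl.cons (nat_lit 0) (nat_lit 0) (nat_lit 0) (Zl.cons (nat_lit 0) (nat_lit 0) (nat_lit 0) Zl.nil))))))))))))))))))))))))))
noncomputable def ZZ3 : ZZ := (ZZ.cons ZL3_0 ZZ.nil)

end Pool.Agent.NNr.R15_1_2_3
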